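import Pool.Agent.H31.BOU.Targets1
import Pool.Agent.H31.BOU.Targets3

/-!
# STR: the structured part is constant outside few scales
-/

set_option autoImplicit false

namespace Pool.Agent.H73.BOU

open Finset Pool.Agent.H31.BOU

/-! ### nodes of a pair -/

lemma kn_lo (a b j : ℕ) : kn a b j * 2 ^ j ≤ (a : ℤ) + b := by
  unfold kn
  have h1 : a / 2 ^ j * 2 ^ j ≤ a := Nat.div_mul_le_self a _
  have h2 : b / 2 ^ j * 2 ^ j ≤ b := Nat.div_mul_le_self b _
  have h3 : ((a / 2 ^ j : ℕ) : ℤ) * 2 ^ j ≤ a := by exact_mod_cast h1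
  have h4 : ((b / 2 ^ j : ℕ) : ℤ) * 2 ^ j ≤ b := by exact_mod_cast h2
  rw [add_mul]
  linarith

lemma kn_hi (a b j : ℕ) : (a : ℤ) + b + 2 ≤ (kn a b j + 2) * 2 ^ j := by
  unfold kn
  have h1 : a < 2 ^ j * (a / 2 ^ j + 1) := Nat.lt_mul_div_succ a (by positivity)
  have h2 : b < 2 ^ j * (b / 2 ^ j + 1) := Nat.lt_mul_div_succ b (by positivity)
  have h3 : (a : ℤ) + 1 ≤ 2 ^ j * (((a / 2 ^ j : ℕ) : ℤ) + 1) := by exact_mod_cast h1
  have h4 : (b : ℤ) + 1 ≤ 2 ^ j * (((b / 2 ^ j : ℕ) : ℤ) + 1) := by exact_mod_cast h2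
  have h5 : (((a / 2 ^ j : ℕ) : ℤ) + ((b / 2 ^ j : ℕ) : ℤ) + 2) * 2 ^ j =
      2 ^ j * (((a / 2 ^ j : ℕ) : ℤ) + 1) + 2 ^ j * (((b / 2 ^ j : ℕ) : ℤ) + 1) := by ring
  rw [h5]
  linarith

lemma kn_step (a b j : ℕ) : 2 * kn a b (j + 1) ≤ kn a b j ∧
    kn a b j ≤ 2 * kn a b (j + 1) + 2 := by
  unfold kn
  have h1 : a / 2 ^ (j + 1) = a / 2 ^ j / 2 := by rw [Nat.div_div_eq_div_mul, pow_succ]
  have h2 : b / 2 ^ (j + 1) = b / 2 ^ j / 2 := by rw [Nat.div_div_eq_div_mul, pow_succ]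
  rw [h1, h2]
  omega

lemma long_near (r c i : ℕ) (m : ℤ) (a b j : ℕ) (hr : 2 ≤ r)
    (h : long r i m j (kn a b j)) : near c i m 0 ((a : ℤ) + b) := by
  obtain ⟨h1, h2⟩ := h
  have h3 := kn_lo a b j
  have h4 := kn_hi a b j
  have hj : (0 : ℤ) < 2 ^ j := by positivity
  have hi : (0 : ℤ) < 2 ^ i := by positivity
  have hr' : (2 : ℤ) ≤ r := by exact_mod_cast hr
  have hc : (0 : ℤ) ≤ c := Int.natCast_nonneg c
  refine ⟨Nat.zero_le _, ?_, ?_⟩
  · rw [pow_zero, mul_one]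
    nlinarith [mul_nonneg hc hi.le, mul_le_mul_of_nonneg_right hr' hj.le]
  · rw [pow_zero, mul_one]
    nlinarith [mul_nonneg hc hi.le, mul_le_mul_of_nonneg_right hr' hj.le]

lemma long_down (r i : ℕ) (m : ℤ) (a b j : ℕ) (hr : 2 ≤ r)
    (h : long r i m (j + 1) (kn a b (j + 1))) : long r i m j (kn a b j) := by
  obtain ⟨h1, h2⟩ := h
  obtain ⟨h3, h4⟩ := kn_step a b j
  have hj : (0 : ℤ) < 2 ^ j := by positivity
  have hr' : (2 : ℤ) ≤ r := by exact_mod_cast hr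
  rw [pow_succ] at h1 h2
  constructor
  · refine h1.trans ?_
    have h5 : (kn a b (j + 1) - r) * (2 ^ j * 2) = (2 * kn a b (j + 1) - 2 * r) * 2 ^ j := by ring
    rw [h5]
    exact mul_le_mul_of_nonneg_right (by linarith) hj.le
  · refine le_trans ?_ h2
    have h5 : (kn a b (j + 1) + r) * (2 ^ j * 2) = (2 * kn a b (j + 1) + 2 * r) * 2 ^ j := by ring
    rw [h5]
    exact mul_le_mul_of_nonneg_right (by linarith) hj.le

lemma long_up (r i : ℕ) (m : ℤ) (a b j : ℕ) (hr : 2 ≤ r)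
    (h : long r i m j (kn a b j)) : meets r i m (j + 1) (kn a b (j + 1)) := by
  obtain ⟨h1, h2⟩ := h
  have h3 := kn_lo a b j
  have h4 := kn_hi a b j
  have h5 := kn_lo a b (j + 1)
  have h6 := kn_hi a b (j + 1)
  have hj : (0 : ℤ) < 2 ^ j := by positivity
  have hj' : (0 : ℤ) < 2 ^ (j + 1) := by positivity
  have hr' : (2 : ℤ) ≤ r := by exact_mod_cast hr
  refine ⟨?_, ?_, ?_⟩
  · by_contra hlt
    have h7 : i ≤ j := by omega
    have h8 : (2 : ℤ) ^ i ≤ 2 ^ j := pow_le_pow_right₀ (by norm_num) h7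
    nlinarith [mul_le_mul_of_nonneg_right hr' hj.le]
  · nlinarith [mul_le_mul_of_nonneg_right hr' hj.le, mul_le_mul_of_nonneg_right hr' hj'.le]
  · nlinarith [mul_le_mul_of_nonneg_right hr' hj.le, mul_le_mul_of_nonneg_right hr' hj'.le]

/-! ### counting -/

lemma card_scales (δ μ : ℝ) (L : ℕ) (hμ : 0 < μ) (hL : 1 / μ / μ ≤ 2 ^ L)
    (S : Finset ℕ) (hS : ∀ j ∈ S, μ < 2 ^ j * δ ∧ 2 ^ j * δ < 1 / μ) : S.card ≤ L := by
  rcases S.eq_empty_or_nonempty with h0 | h0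
  · rw [h0, card_empty]
    exact Nat.zero_le _
  · have hsub : S ⊆ Ico (S.min' h0) (S.min' h0 + L) := by
      intro j hj
      have h1 := S.min'_le j hj
      have h2 := (hS _ (S.min'_mem h0)).1
      have h3 := (hS j hj).2
      rw [mem_Ico]
      refine ⟨h1, ?_⟩
      by_contra hlt
      have h4 : L ≤ j - S.min' h0 := by omega
      have h5 : (2 : ℝ) ^ j = 2 ^ (j - S.min' h0) * 2 ^ (S.min' h0) := by
        rw [← pow_add]
        congr 1
        omega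
      have h6 : (2 : ℝ) ^ L ≤ 2 ^ (j - S.min' h0) := pow_le_pow_right₀ (by norm_num) h4
      have h7 : (2 : ℝ) ^ j * δ = 2 ^ (j - S.min' h0) * (2 ^ (S.min' h0) * δ) := by
        rw [h5]
        ring
      have h8 : (2 : ℝ) ^ (j - S.min' h0) * μ ≤ 2 ^ (j - S.min' h0) * (2 ^ (S.min' h0) * δ) :=
        mul_le_mul_of_nonneg_left h2.le (by positivity)
      have h9 : 1 / μ ≤ 2 ^ (j - S.min' h0) * μ := by
        have h10 := hL.trans h6
        rwa [div_le_iff₀ hμ] at h10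
      linarith
    refine (card_le_card hsub).trans ?_
    rw [Nat.card_Ico]
    omega

lemma str_union {α : Type} (S A B C : Finset α) (a b c d : ℝ) (hA : (A.card : ℝ) ≤ a)
    (hB : (B.card : ℝ) ≤ b) (hC : (C.card : ℝ) ≤ c) (hd : a + b + c ≤ d)
    (h : ∀ x ∈ S, x ∉ A → x ∉ B → x ∉ C → False) : (S.card : ℝ) ≤ d := by
  classical
  have h1 : S ⊆ A ∪ B ∪ C := by
    intro x hx
    by_contra h2
    rw [mem_union, mem_union, not_or, not_or] at h2
    exact h x hx h2.1.1 h2.1.2 h2.2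
  have h2 : S.card ≤ A.card + B.card + C.card := by
    refine (card_le_card h1).trans ((card_union_le _ _).trans ?_)
    exact Nat.add_le_add_right (card_union_le _ _) _
  have h3 : (S.card : ℝ) ≤ A.card + B.card + C.card := by exact_mod_cast h2
  linarith

open Classical in
/-- The number of pairs near a block. -/
lemma near_card (c J i : ℕ) (m : ℤ) :
    ((range (2 ^ J) ×ˢ range (2 ^ J)).filter (fun ab : ℕ × ℕ =>
      near c i m 0 ((ab.1 : ℤ) + ab.2))).card ≤ 2 ^ J * ((2 * c + 1) * 2 ^ i) := by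
  have h1 : ((range (2 ^ J) ×ˢ range (2 ^ J)).filter (fun ab : ℕ × ℕ =>
      near c i m 0 ((ab.1 : ℤ) + ab.2))).card ≤
      ∑ a ∈ range (2 ^ J), ((2 * c + 1) * 2 ^ i) := by
    rw [card_filter, sum_product]
    refine sum_le_sum fun a _ => ?_
    rw [← card_filter]
    have h2 : (((range (2 ^ J)).filter (fun b : ℕ => near c i m 0 ((a : ℤ) + b))).image
        (fun b : ℕ => (b : ℤ))) ⊆
        Ico ((m - c) * 2 ^ i - a) ((m - c) * 2 ^ i - a + ((2 * c + 1) * 2 ^ i : ℕ)) := by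
      intro v hv
      rw [mem_image] at hv
      obtain ⟨b, hb, rfl⟩ := hv
      obtain ⟨-, -, h3, h4⟩ := mem_filter.1 hb
      rw [pow_zero, mul_one] at h3 h4
      rw [mem_Ico]
      push_cast
      constructor
      · linarith
      · have h5 : (m + 1 + c) * 2 ^ i = (m - c) * 2 ^ i + (2 * c + 1) * 2 ^ i := by ring
        rw [h5] at h4
        linarith
    have h3 := card_le_card h2
    rw [card_image_of_injective _ Nat.cast_injective, Int.card_Ico] at h3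
    have h4 : ((m - c) * 2 ^ i - (a : ℤ) + ((2 * c + 1) * 2 ^ i : ℕ) -
        ((m - c) * 2 ^ i - a)).toNat = (2 * c + 1) * 2 ^ i := by
      rw [add_sub_cancel_left, Int.toNat_natCast]
    rwa [h4] at h3
  rw [sum_const, card_range, smul_eq_mul] at h1
  exact h1

open Classical in
/-- The Markov bound. -/
lemma str_markov {θ : Type} [Fintype θ] (c J : ℕ) (s ε Y : ℝ) (hs : 0 < s) (hε : 0 < ε)
    (hY : Y = 8 * (2 * c + 1) / (s * ε)) (G : ℤ → ℂ) (Q : Fam θ) (hQ : PurP J s G Q) :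
    (((range (2 ^ J) ×ˢ range (2 ^ J)).filter (fun ab : ℕ × ℕ =>
      ¬ ∑ u ∈ univ.filter (fun u => near c (Q.sc u) (Q.mm u) 0 ((ab.1 : ℤ) + ab.2)),
        ‖Q.co u‖ ≤ Y)).card : ℝ) ≤ ε / 4 * 4 ^ J := by
  set S := (range (2 ^ J) ×ˢ range (2 ^ J)).filter (fun ab : ℕ × ℕ =>
      ¬ ∑ u ∈ univ.filter (fun u => near c (Q.sc u) (Q.mm u) 0 ((ab.1 : ℤ) + ab.2)),
        ‖Q.co u‖ ≤ Y) with hS
  have hY0 : 0 < Y := by rw [hY]; positivity
  have h1 : (S.card : ℝ) * Y ≤ ∑ ab ∈ range (2 ^ J) ×ˢ range (2 ^ J),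
      ∑ u ∈ univ.filter (fun u => near c (Q.sc u) (Q.mm u) 0 ((ab.1 : ℤ) + ab.2)),
        ‖Q.co u‖ := by
    calc (S.card : ℝ) * Y = ∑ ab ∈ S, Y := by rw [sum_const, nsmul_eq_mul]
      _ ≤ ∑ ab ∈ S, ∑ u ∈ univ.filter (fun u =>
          near c (Q.sc u) (Q.mm u) 0 ((ab.1 : ℤ) + ab.2)), ‖Q.co u‖ := by
          refine sum_le_sum fun ab hab => ?_
          exact (not_le.1 (mem_filter.1 hab).2).le
      _ ≤ _ := by
          refine sum_le_sum_of_subset_of_nonneg (filter_subset _ _) fun ab _ _ => ?_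
          exact sum_nonneg fun u _ => norm_nonneg _
  have h2 : ∑ ab ∈ range (2 ^ J) ×ˢ range (2 ^ J),
      ∑ u ∈ univ.filter (fun u => near c (Q.sc u) (Q.mm u) 0 ((ab.1 : ℤ) + ab.2)),
        ‖Q.co u‖ = ∑ u, (((range (2 ^ J) ×ˢ range (2 ^ J)).filter (fun ab : ℕ × ℕ =>
          near c (Q.sc u) (Q.mm u) 0 ((ab.1 : ℤ) + ab.2))).card : ℝ) * ‖Q.co u‖ := by
    simp only [sum_filter]
    rw [sum_comm]
    refine sum_congr rfl fun u _ => ?_
    rw [← sum_filter, sum_const, nsmul_eq_mul]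
  have h3 : ∀ u, (((range (2 ^ J) ×ˢ range (2 ^ J)).filter (fun ab : ℕ × ℕ =>
      near c (Q.sc u) (Q.mm u) 0 ((ab.1 : ℤ) + ab.2))).card : ℝ) * ‖Q.co u‖ ≤
      2 ^ J * (2 * c + 1) / s * (2 ^ Q.sc u * ‖Q.co u‖ ^ 2) := by
    intro u
    have h4 : (((range (2 ^ J) ×ˢ range (2 ^ J)).filter (fun ab : ℕ × ℕ =>
        near c (Q.sc u) (Q.mm u) 0 ((ab.1 : ℤ) + ab.2))).card : ℝ) ≤
        2 ^ J * ((2 * c + 1) * 2 ^ Q.sc u) := by
      exact_mod_cast near_card c J (Q.sc u) (Q.mm u)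
    have h5 : s ≤ ‖Q.co u‖ := (hQ.s u).2.2.2
    have h6 : ‖Q.co u‖ ≤ ‖Q.co u‖ ^ 2 / s := by
      rw [le_div_iff₀ hs, sq]
      exact mul_le_mul_of_nonneg_left h5 (norm_nonneg _)
    calc _ ≤ 2 ^ J * ((2 * c + 1) * 2 ^ Q.sc u) * (‖Q.co u‖ ^ 2 / s) :=
          mul_le_mul h4 h6 (norm_nonneg _) (by positivity)
      _ = _ := by ring
  have h4 : (S.card : ℝ) * Y ≤ 2 ^ J * (2 * c + 1) / s * 2 ^ (J + 1) := by
    refine h1.trans ?_
    rw [h2]
    refine (sum_le_sum fun u _ => h3 u).trans ?_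
    rw [← mul_sum]
    exact mul_le_mul_of_nonneg_left hQ.e (by positivity)
  have h5 : (2 : ℝ) ^ J * (2 * c + 1) / s * 2 ^ (J + 1) = ε / 4 * 4 ^ J * Y := by
    have h6 : (4 : ℝ) ^ J = 2 ^ J * 2 ^ J := by
      rw [← mul_pow]
      norm_num
    rw [hY, h6, pow_succ]
    field_simp
    ring
  rw [h5] at h4
  exact le_of_mul_le_mul_right h4 hY0

/-- Choice of the threshold. -/
lemma str_small (A D lam : ℝ) (hlam : 0 < lam) : ∃ s : ℝ, 0 < s ∧ s ≤ 1 ∧
    A * (s * (6 + 4 * Real.log ((1 / s) ^ 4)) + 4 * (1 + D / s) / Real.sqrt ((1 / s) ^ 4)) ≤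
      lam := by
  have hc : Continuous (fun s : ℝ => A * (6 * s - 16 * (s * Real.log s) + 4 * s ^ 2 + 4 * D * s)) := by
    have := Real.continuous_mul_log
    fun_prop
  have h0 : Filter.Tendsto (fun s : ℝ => A * (6 * s - 16 * (s * Real.log s) + 4 * s ^ 2 + 4 * D * s))
      (nhdsWithin 0 (Set.Ioi 0)) (nhds 0) := by
    have h1 := hc.tendsto 0
    simp only [mul_zero, Real.log_zero] at h1
    norm_num at h1
    exact h1.mono_left nhdsWithin_le_nhds
  have h1 : ∀ᶠ s : ℝ in nhdsWithin 0 (Set.Ioi 0),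
      A * (6 * s - 16 * (s * Real.log s) + 4 * s ^ 2 + 4 * D * s) < lam :=
    (tendsto_order.1 h0).2 lam hlam
  have h2 : ∀ᶠ s : ℝ in nhdsWithin 0 (Set.Ioi 0), 0 < s := self_mem_nhdsWithin
  have h3 : ∀ᶠ s : ℝ in nhdsWithin 0 (Set.Ioi 0), s ≤ 1 :=
    Filter.Eventually.filter_mono nhdsWithin_le_nhds (Filter.Eventually.mono
      (gt_mem_nhds (show (0 : ℝ) < 1 by norm_num)) fun s hs => le_of_lt hs)
  obtain ⟨s, hs1, hs2, hs3⟩ := (h1.and (h2.and h3)).exists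
  refine ⟨s, hs2, hs3, ?_⟩
  have h4 : Real.log ((1 / s) ^ 4) = -4 * Real.log s := by
    rw [Real.log_pow, one_div, Real.log_inv]
    push_cast
    ring
  have h5 : Real.sqrt ((1 / s) ^ 4) = (1 / s) ^ 2 := by
    have h6 : (1 / s) ^ 4 = ((1 / s) ^ 2) ^ 2 := by ring
    rw [h6, Real.sqrt_sq (by positivity)]
  rw [h4, h5]
  refine le_trans (le_of_eq ?_) hs1.le
  field_simp
  ring

open Classical in
theorem pf_STR (hA : T_STA) (hN : T_STN) (hP : T_PUR) : T_STR := by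
  intro T ε lam τ hε hlam hτ
  obtain ⟨C, hC0, hC⟩ := hN T
  obtain ⟨K1, hK1⟩ := hA (cc T) (rr T) (ε / 2) τ (by positivity) hτ
  obtain ⟨s, hs0, hs1, hs⟩ := str_small (C * K1) (8 * (2 * (cc T : ℝ) + 1) / ε) (lam / 2)
    (by positivity)
  obtain ⟨K2, hK2⟩ := hA (cc T) (rr T) (ε / 4) s (by positivity) hs0
  obtain ⟨Y, hY⟩ : ∃ Y : ℝ, Y = 8 * (2 * (cc T : ℝ) + 1) / (s * ε) := ⟨_, rfl⟩
  have hY0 : 0 < Y := by rw [hY]; positivity
  have hYs : 8 * (2 * (cc T : ℝ) + 1) / ε / s = Y := by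
    rw [hY, div_div, mul_comm ε s]
  rw [hYs] at hs
  -- the constant of closeness
  obtain ⟨μ, hμ0, hμ1, hμ⟩ : ∃ μ : ℝ, 0 < μ ∧ μ < 1 / 2 ∧ C * K1 * Y * μ ≤ lam / 2 := by
    have hx : 0 < C * K1 * Y + 1 := by positivity
    refine ⟨min (1 / 4) (lam / 2 / (C * K1 * Y + 1)), ?_, ?_, ?_⟩
    · exact lt_min (by norm_num) (by positivity)
    · exact lt_of_le_of_lt (min_le_left _ _) (by norm_num)
    · have h1 : C * K1 * Y * min (1 / 4) (lam / 2 / (C * K1 * Y + 1)) ≤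
          (C * K1 * Y + 1) * (lam / 2 / (C * K1 * Y + 1)) := by
        refine mul_le_mul (by linarith) (min_le_right _ _) ?_ hx.le
        exact le_min (by norm_num) (by positivity)
      refine h1.trans (le_of_eq ?_)
      field_simp
  obtain ⟨L, hL⟩ : ∃ L : ℕ, 1 / μ / μ ≤ (2 : ℝ) ^ L := by
    obtain ⟨L, hL⟩ := pow_unbounded_of_one_lt (1 / μ / μ) (show (1 : ℝ) < 2 by norm_num)
    exact ⟨L, hL.le⟩
  refine ⟨K1 + K2 + K1 * K2 * L, ?_⟩
  intro ι _ J F G P hF hG hPP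
  obtain ⟨n, Q, q1, q2, q3⟩ := hP J s G hs0 hG.1 hG.2
  have hQ : PurP J s G Q := ⟨q1, q2, q3⟩
  have hr2 : 2 ≤ rr T := by unfold rr; omega
  refine str_union _ _ _ _ _ _ _ _ (hK1 ι J F P hPP) (hK2 (Fin n) J G Q hQ)
    (str_markov (cc T) J s ε Y hs0 hε hY G Q hQ) (le_of_eq (by ring)) ?_
  rintro ⟨a, b⟩ hab h1 h2 h3
  obtain ⟨hmem, hbad⟩ := mem_filter.1 hab
  rw [mem_filter, not_and, not_not] at h1 h2 h3
  obtain ⟨n1, s1, b1⟩ := h1 hmem
  obtain ⟨n2, s2, b2⟩ := h2 hmem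
  have y2 := h3 hmem
  simp only at n1 s1 b1 n2 s2 b2 y2 hbad
  apply hbad
  -- the pieces near the pair
  set NP := univ.filter (fun i => near (cc T) (P.sc i) (P.mm i) 0 ((a : ℤ) + b)) with hNP
  set NQ := univ.filter (fun u => near (cc T) (Q.sc u) (Q.mm u) 0 ((a : ℤ) + b)) with hNQ
  let sca : ι × Fin n → Finset ℕ := fun x => (range (J + 1)).filter (fun j =>
    μ < 2 ^ j * nd (Q.be x.2 - P.be x.1) ∧ 2 ^ j * nd (Q.be x.2 - P.be x.1) < 1 / μ)
  set E1 := (range (J + 1)).filter (fun j => ∃ i, meets (rr T) (P.sc i) (P.mm i) j (kn a b j) ∧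
        ¬ long (rr T) (P.sc i) (P.mm i) j (kn a b j)) with hE1
  set E2 := (range (J + 1)).filter (fun j => ∃ i, meets (rr T) (Q.sc i) (Q.mm i) j (kn a b j) ∧
        ¬ long (rr T) (Q.sc i) (Q.mm i) j (kn a b j)) with hE2
  let E3 : Finset ℕ := (NP ×ˢ NQ).biUnion sca
  -- consequences of `j ∉ E`
  have c1 : ∀ j ≤ J, j ∉ E1 ∪ E2 ∪ E3 → ∀ i, meets (rr T) (P.sc i) (P.mm i) j (kn a b j) →
      long (rr T) (P.sc i) (P.mm i) j (kn a b j) := by
    intro j hj hjE i hm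
    by_contra hl
    apply hjE
    rw [mem_union, mem_union]
    exact Or.inl (Or.inl (mem_filter.2 ⟨mem_range.2 (by omega), i, hm, hl⟩))
  have c2 : ∀ j ≤ J, j ∉ E1 ∪ E2 ∪ E3 → ∀ u, meets (rr T) (Q.sc u) (Q.mm u) j (kn a b j) →
      long (rr T) (Q.sc u) (Q.mm u) j (kn a b j) := by
    intro j hj hjE i hm
    by_contra hl
    apply hjE
    rw [mem_union, mem_union]
    exact Or.inl (Or.inr (mem_filter.2 ⟨mem_range.2 (by omega), i, hm, hl⟩))
  have c3 : ∀ j ≤ J, j ∉ E1 ∪ E2 ∪ E3 → ∀ i ∈ NP, ∀ u ∈ NQ,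
      2 ^ j * nd (Q.be u - P.be i) ≤ μ ∨ 1 / μ ≤ 2 ^ j * nd (Q.be u - P.be i) := by
    intro j hj hjE i hi u hu
    by_contra hcon
    rw [not_or, not_le, not_le] at hcon
    apply hjE
    rw [mem_union]
    refine Or.inr (mem_biUnion.2 ⟨(i, u), mem_product.2 ⟨hi, hu⟩, ?_⟩)
    exact mem_filter.2 ⟨mem_range.2 (by omega), hcon⟩
  have lP : ∀ j i, long (rr T) (P.sc i) (P.mm i) j (kn a b j) → i ∈ NP := by
    intro j i h
    exact mem_filter.2 ⟨mem_univ _, long_near (rr T) (cc T) _ _ a b j hr2 h⟩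
  have lQ : ∀ j u, long (rr T) (Q.sc u) (Q.mm u) j (kn a b j) → u ∈ NQ := by
    intro j i h
    exact mem_filter.2 ⟨mem_univ _, long_near (rr T) (cc T) _ _ a b j hr2 h⟩
  refine ⟨E1 ∪ E2 ∪ E3, fun j => ∑ i, ∑ u, (if long (rr T) (P.sc i) (P.mm i) j (kn a b j) ∧
      long (rr T) (Q.sc u) (Q.mm u) j (kn a b j) ∧ 2 ^ j * nd (Q.be u - P.be i) ≤ μ then
      P.co i * Q.co u * ee ((P.be i + Q.be u) * (((a : ℤ) + b : ℤ) : ℝ)) else 0), ?_, ?_, ?_⟩
  · -- the number of exceptional scales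
    have e3 : E3.card ≤ K1 * K2 * L := by
      refine (card_biUnion_le_card_mul _ _ L ?_).trans ?_
      · intro x _
        refine card_scales (nd (Q.be x.2 - P.be x.1)) μ L hμ0 hL _ ?_
        intro j hj
        exact (mem_filter.1 hj).2
      · rw [card_product]
        exact Nat.mul_le_mul_right _ (Nat.mul_le_mul n1 n2)
    refine (card_union_le _ _).trans (add_le_add ?_ e3)
    exact (card_union_le _ _).trans (add_le_add b1 b2)
  · -- the structured part at one scale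
    intro j hj hjE t ht
    have hpos : (0 : ℝ) ≤ (K1 : ℝ) := Nat.cast_nonneg _
    have key := hC ι (Fin n) G Q P j (kn a b j) ((a : ℤ) + b) t s μ K1 Y ((1 / s) ^ 4) ht
      (kn_lo a b j) (by have := kn_hi a b j; linarith) hG.1 hs0.le hμ0 (by linarith)
      (one_le_pow₀ (by rw [le_div_iff₀ hs0]; linarith)) hpos hY0.le
      (q3 j hj) (c1 j hj hjE) (c2 j hj hjE)
      (by
        refine le_trans (sum_le_sum_of_subset_of_nonneg ?_ fun _ _ _ => norm_nonneg _) s1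
        intro i hi
        exact lP j i (mem_filter.1 hi).2)
      (by
        refine le_trans (sum_le_sum_of_subset_of_nonneg ?_ fun _ _ _ => norm_nonneg _) y2
        intro u hu
        exact lQ j u (mem_filter.1 hu).2)
      (fun i u hi hu => c3 j hj hjE i (lP j i hi) u (lQ j u hu))
    refine key.trans ?_
    linarith
  · -- constancy
    intro j hj hjE hjE'
    refine sum_congr rfl fun i _ => sum_congr rfl fun u _ => ?_
    have hiff : (long (rr T) (P.sc i) (P.mm i) j (kn a b j) ∧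
        long (rr T) (Q.sc u) (Q.mm u) j (kn a b j) ∧ 2 ^ j * nd (Q.be u - P.be i) ≤ μ) ↔
        (long (rr T) (P.sc i) (P.mm i) (j + 1) (kn a b (j + 1)) ∧
        long (rr T) (Q.sc u) (Q.mm u) (j + 1) (kn a b (j + 1)) ∧
          2 ^ (j + 1) * nd (Q.be u - P.be i) ≤ μ) := by
      constructor
      · rintro ⟨g1, g2, g3⟩
        refine ⟨c1 (j + 1) hj hjE' i (long_up _ _ _ a b j hr2 g1),
          c2 (j + 1) hj hjE' u (long_up _ _ _ a b j hr2 g2), ?_⟩
        rcases c3 (j + 1) hj hjE' i (lP j i g1) u (lQ j u g2) with g4 | g4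
        · exact g4
        · exfalso
          have g5 : (2 : ℝ) ^ (j + 1) * nd (Q.be u - P.be i) ≤ 2 * μ := by
            rw [pow_succ]
            linarith
          have g6 := g4.trans g5
          rw [div_le_iff₀ hμ0] at g6
          nlinarith
      · rintro ⟨g1, g2, g3⟩
        refine ⟨long_down _ _ _ a b j hr2 g1, long_down _ _ _ a b j hr2 g2, ?_⟩
        refine le_trans ?_ g3
        have g4 : 0 ≤ nd (Q.be u - P.be i) := abs_nonneg _
        exact mul_le_mul_of_nonneg_right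
          (pow_le_pow_right₀ (by norm_num) (Nat.le_succ j)) g4
    by_cases hc : long (rr T) (P.sc i) (P.mm i) j (kn a b j) ∧
        long (rr T) (Q.sc u) (Q.mm u) j (kn a b j) ∧ 2 ^ j * nd (Q.be u - P.be i) ≤ μ
    · rw [if_pos hc, if_pos (hiff.1 hc)]
    · rw [if_neg hc, if_neg fun h => hc (hiff.2 h)]

end Pool.Agent.H73.BOU
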